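import Pool.Agent.J6H49.SY.Z2

/-!
# Linear algebra modulo two
-/

set_option autoImplicit false

namespace Pool.Agent.J6H81.S2.Lin

variable {V E : Type} [Fintype V]

/-- the number of nonzero entries -/
def wt (S : V → ZMod 2) : ℕ := (Finset.univ.filter fun v => S v ≠ 0).card

theorem wt_zero : wt (0 : V → ZMod 2) = 0 := by simp [wt]

theorem wt_add [DecidableEq V] (S T : V → ZMod 2) : wt (S + T) ≤ wt S + wt T := by
  unfold wt
  refine (Finset.card_le_card ?_).trans (Finset.card_union_le _ _)
  intro v hv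
  simp only [Finset.mem_filter, Finset.mem_univ, true_and, Finset.mem_union, Pi.add_apply] at hv ⊢
  by_contra h
  push Not at h
  exact hv (by rw [h.1, h.2, add_zero])

theorem wt_smul (c : ZMod 2) (S : V → ZMod 2) : wt (c • S) ≤ wt S := by
  unfold wt
  refine Finset.card_le_card fun v hv => ?_
  simp only [Finset.mem_filter, Finset.mem_univ, true_and, Pi.smul_apply, smul_eq_mul] at hv ⊢
  exact fun h => hv (by rw [h, mul_zero])

/-- the combination of the rows -/
def col (A : V → E → ZMod 2) (S : V → ZMod 2) : E → ZMod 2 := fun e => ∑ v, S v * A v e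

theorem col_add (A : V → E → ZMod 2) (S T : V → ZMod 2) :
    col A (S + T) = col A S + col A T := by
  funext e
  simp [col, add_mul, Finset.sum_add_distrib]

theorem col_smul (A : V → E → ZMod 2) (c : ZMod 2) (S : V → ZMod 2) :
    col A (c • S) = c • col A S := by
  funext e
  simp [col, Finset.mul_sum, mul_assoc]

theorem col_zero (A : V → E → ZMod 2) : col A 0 = 0 := by
  funext e
  simp [col]

theorem dual_apply [Fintype E] [DecidableEq E] (ψ : (E → ZMod 2) →ₗ[ZMod 2] ZMod 2)
    (c : E → ZMod 2) : ψ c = ∑ e, c e * ψ (Pi.single e 1) := by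
  have h3 : c = ∑ e, c e • Pi.single e (1 : ZMod 2) := by
    funext e
    rw [Finset.sum_apply, Finset.sum_eq_single e]
    · simp
    · intro e' _ he'
      simp [he'.symm]
    · intro h
      exact absurd (Finset.mem_univ e) h
  conv_lhs => rw [h3, map_sum]
  refine Finset.sum_congr rfl fun e _ => ?_
  rw [map_smul, smul_eq_mul]

/-- **S2-LIN** -/
theorem main : Pool.Agent.J6H49.SY.Z2.S_LIN3 := by
  intro V E _ _ _ _ A t K K' hexp β hβ
  let Z : Submodule (ZMod 2) (V → ZMod 2) :=
    { carrier := {S | wt S ≤ t ∧ col A S ∈ K ⊔ K'}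
      zero_mem' := ⟨by rw [wt_zero]; exact Nat.zero_le _, by rw [col_zero]; exact zero_mem _⟩
      add_mem' := by
        rintro S T ⟨hS, hS'⟩ ⟨hT, hT'⟩
        refine ⟨?_, by rw [col_add]; exact add_mem hS' hT'⟩
        have h1 : 2 * wt S ≤ t := hexp S hS hS'
        have h2 : 2 * wt T ≤ t := hexp T hT hT'
        have h3 := wt_add S T
        omega
      smul_mem' := by
        rintro c S ⟨hS, hS'⟩
        exact ⟨(wt_smul c S).trans hS, by rw [col_smul]; exact Submodule.smul_mem _ _ hS'⟩ }
  let P : (Z × K) →ₗ[ZMod 2] (E → ZMod 2) :=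
    { toFun := fun p => col A p.1.1 + p.2.1
      map_add' := by
        intro p q
        simp only [Prod.fst_add, Prod.snd_add, Submodule.coe_add, col_add]
        abel
      map_smul' := by
        intro c p
        simp only [Prod.smul_fst, Prod.smul_snd, Submodule.coe_smul, col_smul, RingHom.id_apply,
          smul_add] }
  let φ : (Z × K) →ₗ[ZMod 2] ZMod 2 :=
    { toFun := fun p => ∑ v, p.1.1 v * β v
      map_add' := by
        intro p q
        simp [add_mul, Finset.sum_add_distrib]
      map_smul' := by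
        intro c p
        simp [Finset.mul_sum, mul_assoc] }
  have hφ : φ ∈ (LinearMap.ker P).dualAnnihilator := by
    rw [Submodule.mem_dualAnnihilator]
    intro p hp
    rw [LinearMap.mem_ker] at hp
    have h : col A p.1.1 + p.2.1 = 0 := hp
    have h' : col A p.1.1 = -p.2.1 := eq_neg_of_add_eq_zero_left h
    refine hβ p.1.1 p.1.2.1 ?_
    change col A p.1.1 ∈ K
    rw [h']
    exact neg_mem p.2.2
  rw [← LinearMap.range_dualMap_eq_dualAnnihilator_ker] at hφ
  obtain ⟨ψ, hψ⟩ := hφ
  have hψ' : ∀ p : Z × K, ∑ v, p.1.1 v * β v = ψ (col A p.1.1 + p.2.1) := fun p => by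
    have := LinearMap.congr_fun hψ p
    exact this.symm
  refine ⟨fun e => ψ (Pi.single e 1), fun c hc => ?_, ?_⟩
  · have h := hψ' (0, ⟨c, hc⟩)
    have h0 : col A ((0 : Z) : V → ZMod 2) = 0 := col_zero A
    rw [← dual_apply ψ c]
    simp only [Submodule.coe_zero, Pi.zero_apply, zero_mul, Finset.sum_const_zero] at h
    rw [col_zero, zero_add] at h
    exact h.symm
  intro S hS hS'
  have hSZ : S ∈ Z := ⟨hS, (le_sup_right : K' ≤ K ⊔ K') hS'⟩
  have h1 := hψ' (⟨S, hSZ⟩, 0)
  simp only [Submodule.coe_zero, add_zero] at h1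
  rw [dual_apply ψ (col A S)] at h1
  have h4 : ∑ v, S v * ∑ e, A v e * ψ (Pi.single e 1) =
      ∑ e, col A S e * ψ (Pi.single e 1) := by
    simp only [Finset.mul_sum]
    rw [Finset.sum_comm]
    refine Finset.sum_congr rfl fun e _ => ?_
    rw [col, Finset.sum_mul]
    exact Finset.sum_congr rfl fun v _ => by ring
  simp only [mul_add, Finset.sum_add_distrib]
  rw [h4, h1]
  exact CharTwo.add_self_eq_zero _

end Pool.Agent.J6H81.S2.Lin
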